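import Pool.Agent.H98.Tri.Int
import Pool.Agent.H93.SM.Iface

set_option autoImplicit false

/-! MP_2e6055, module ARC: marks through given boundary vertices. -/

namespace Pool.Agent.H98.SM

open Pool.Agent.H7.UC Pool.Agent.H74.Tri Pool.Agent.H98.Tri Pool.Agent.H93.SM

/-- the domain is black, its complement is white -/
noncomputable def ow (U : Finset Fc) (f : Fc) : Bool := by
  classical exact decide (f ∈ U)

theorem ow_true {U : Finset Fc} {f : Fc} : ow U f = true ↔ f ∈ U := by
  unfold ow; simp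

theorem ow_false {U : Finset Fc} {f : Fc} : ow U f = false ↔ f ∉ U := by
  unfold ow; simp

theorem bi_iff {U : Finset Fc} {p : Pos} : Bi (ow U) p ↔ pl p ∈ U ∧ pr p ∉ U := by
  unfold Bi; rw [ow_true, ow_false]

theorem isB_pe {U : Finset Fc} {p : Pos} (h : Bi (ow U) p) : isB U (pe p) := by
  rw [bi_iff] at h
  unfold isB
  rcases pe_faces p with h' | h' <;> rw [h'.1, h'.2] <;> tauto

/-- every boundary edge is the edge of a position -/
theorem exists_pos {U : Finset Fc} {e : Ed} (h : isB U e) : ∃ p, Bi (ow U) p ∧ pe p = e := by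
  set v : Vx := (e.1, e.2.1, false) with hv
  have he : ed v e.2.2 = e := (eq_ed e).symm
  have hl : lf e = fc v (e.2.2 + 1) := rfl
  have hr : rf e = fc v (e.2.2 + 2) := rfl
  rcases h with ⟨h1, h2⟩ | ⟨h1, h2⟩
  · exact ⟨(v, e.2.2), bi_iff.2 ⟨by rw [hl] at h1; exact h1, by rw [hr] at h2; exact h2⟩, he⟩
  · refine ⟨(nb v e.2.2, e.2.2), bi_iff.2 ⟨?_, ?_⟩, ?_⟩
    · show fc (nb v e.2.2) (e.2.2 + 1) ∈ U
      rw [fc_nb1, ← hr]; exact h2
    · show fc (nb v e.2.2) (e.2.2 + 2) ∉ U
      rw [fc_nb2, ← hl]; exact h1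
    · show ed (nb v e.2.2) e.2.2 = e
      rw [ed_nb]; exact he

/-- the orbit is periodic -/
theorem exists_period {U : Finset Fc} {p : Pos} (hb : Bi (ow U) p) :
    ∃ N, 1 ≤ N ∧ orb (ow U) p N = p ∧ ∀ i, 1 ≤ i → i < N → orb (ow U) p i ≠ p := by
  classical
  have hex : ∃ N, 1 ≤ N ∧ orb (ow U) p N = p := by
    have hmaps : Set.MapsTo (fun i => orb (ow U) p i) Set.univ {q : Pos | inE U (pe q)} := by
      intro i _
      rcases isB_pe (hb.orb i) with h | h
      · exact Or.inl h.1
      · exact Or.inr h.2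
    have hni : ¬ Set.InjOn (fun i => orb (ow U) p i) Set.univ := by
      intro hinj
      exact Set.infinite_univ (Set.Finite.of_finite_image
        ((pos_finite U).subset (Set.mapsTo_iff_image_subset.1 hmaps)) hinj)
    unfold Set.InjOn at hni
    push Not at hni
    obtain ⟨i, _, j, _, hij, hne⟩ := hni
    have key : ∀ i j, i < j → orb (ow U) p i = orb (ow U) p j → ∃ N, 1 ≤ N ∧ orb (ow U) p N = p := by
      intro i j hlt he
      refine ⟨j - i, by omega, ?_⟩
      have e1 : orb (ow U) p j = orb (ow U) (orb (ow U) p (j - i)) i := by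
        rw [← orb_add]; congr 1; omega
      rw [e1] at he
      exact (orb_inj hb (hb.orb (j - i)) he).symm
    rcases lt_or_gt_of_ne hne with h | h
    · exact key i j h hij
    · exact key j i h hij.symm
  obtain ⟨h1, h2⟩ := Nat.find_spec hex
  refine ⟨Nat.find hex, h1, h2, fun i hi hlt he => Nat.find_min hex hlt ⟨hi, he⟩⟩

section Cycle

variable {U : Finset Fc} {p : Pos} {N : ℕ}

theorem orb_per (hN : orb (ow U) p N = p) (i : ℕ) : orb (ow U) p (N + i) = orb (ow U) p i := by
  rw [orb_add, hN]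

/-- all positions are on the orbit -/
theorem all_on (h1b : D1b) (hU : IsDom U) (hb : Bi (ow U) p) (hN1 : 1 ≤ N)
    (hN : orb (ow U) p N = p) {q : Pos} (hq : Bi (ow U) q) :
    ∃ i, i < N ∧ orb (ow U) p i = q := by
  set T : Set Pos := {r | ∃ i, i < N ∧ orb (ow U) p i = r} with hT
  have hTB : ∀ r ∈ T, Bi (ow U) r := by rintro r ⟨i, _, rfl⟩; exact hb.orb i
  have hTs : ∀ r ∈ T, stp (ow U) r ∈ T := by
    rintro r ⟨i, hi, rfl⟩
    rcases Nat.lt_or_ge (i + 1) N with h | h
    · exact ⟨i + 1, h, orb_succ _ _ _⟩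
    · have : i + 1 = N := by omega
      refine ⟨0, by omega, ?_⟩
      rw [← orb_succ, this, hN]; rfl
  have hTp : ∀ r ∈ T, prd (ow U) r ∈ T := by
    rintro r ⟨i, hi, rfl⟩
    rcases Nat.eq_zero_or_pos i with h | h
    · subst h
      refine ⟨N - 1, by omega, ?_⟩
      apply stp_inj (hb.orb _) (prd_spec (hb.orb 0)).1
      rw [(prd_spec (hb.orb 0)).2, ← orb_succ]
      have : N - 1 + 1 = N := by omega
      rw [this, hN]; rfl
    · refine ⟨i - 1, by omega, ?_⟩
      apply stp_inj (hb.orb _) (prd_spec (hb.orb i)).1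
      rw [(prd_spec (hb.orb i)).2, ← orb_succ]
      congr 1; omega
  have hsupp : ∀ e, ind (pe '' T) e ≠ 0 → isB U e := by
    intro e he
    have : e ∈ pe '' T := by
      by_contra hn
      exact he (ind_not hn)
    obtain ⟨r, hr, rfl⟩ := this
    exact isB_pe (hTB r hr)
  have hpT : p ∈ T := ⟨0, by omega, rfl⟩
  have hq' : pe q ∈ pe '' T := by
    rcases h1b U hU (ind (pe '' T)) hsupp (loop_dv hTB hTs hTp) with h | h
    · have := h (pe p)
      rw [ind_mem (show pe p ∈ pe '' T from ⟨p, hpT, rfl⟩)] at this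
      exact absurd this (by decide)
    · by_contra hn
      have := h (pe q) (isB_pe hq)
      rw [ind_not hn] at this
      exact absurd this (by decide)
  obtain ⟨r, hr, he⟩ := hq'
  rw [← pe_inj (hTB r hr) hq he]
  exact hr

theorem orb_ne (hb : Bi (ow U) p) (hmin : ∀ i, 1 ≤ i → i < N → orb (ow U) p i ≠ p) {i j : ℕ}
    (h : i < j) (hj : j < N + i) : orb (ow U) p i ≠ orb (ow U) p j := by
  intro he
  have e1 : orb (ow U) p j = orb (ow U) (orb (ow U) p (j - i)) i := by
    rw [← orb_add]; congr 1; omega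
  rw [e1] at he
  exact hmin (j - i) (by omega) (by omega) (orb_inj hb (hb.orb (j - i)) he).symm

/-- segment of the boundary -/
noncomputable def seg (U : Finset Fc) (p : Pos) (s t : ℕ) : Finset Ed := by
  classical exact (Finset.Ioc s t).image (fun i => pe (orb (ow U) p i))

theorem mem_seg {s t : ℕ} {e : Ed} :
    e ∈ seg U p s t ↔ ∃ i, s < i ∧ i ≤ t ∧ pe (orb (ow U) p i) = e := by
  classical
  unfold seg
  rw [Finset.mem_image]
  constructor
  · rintro ⟨i, hi, rfl⟩
    rw [Finset.mem_Ioc] at hi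
    exact ⟨i, hi.1, hi.2, rfl⟩
  · rintro ⟨i, h1, h2, rfl⟩
    exact ⟨i, Finset.mem_Ioc.2 ⟨h1, h2⟩, rfl⟩

theorem nb_orb (i : ℕ) : nb (orb (ow U) p (i + 1)).1 (orb (ow U) p (i + 1)).2 =
    (orb (ow U) p i).1 := by
  rw [orb_succ]
  unfold stp
  split_ifs
  · exact nb_nb _ _
  · exact nb_nb _ _

theorem seg_dv (hb : Bi (ow U) p) (hmin : ∀ i, 1 ≤ i → i < N → orb (ow U) p i ≠ p) {s t : ℕ}
    (hst : s ≤ t) (ht : t ≤ s + N) (v : Vx) :
    dv (ind (↑(seg U p s t) : Set Ed)) v =
      ind {(orb (ow U) p s).1} v + ind {(orb (ow U) p t).1} v := by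
  induction t, hst using Nat.le_induction with
  | base =>
    rw [two_zmod]
    have : ∀ e, ind (↑(seg U p s s) : Set Ed) e = 0 := by
      intro e
      apply ind_not
      rw [Finset.mem_coe, mem_seg]
      rintro ⟨i, h1, h2, _⟩
      omega
    unfold dv
    rw [this, this, this]; rfl
  | succ t hst ih =>
    have ih' := ih (by omega)
    have hnot : pe (orb (ow U) p (t + 1)) ∉ seg U p s t := by
      rw [mem_seg]
      rintro ⟨i, h1, h2, h3⟩
      exact orb_ne hb hmin (i := i) (j := t + 1) (by omega) (by omega)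
        (pe_inj (hb.orb _) (hb.orb _) h3)
    have hsum : ∀ e, ind (↑(seg U p s (t + 1)) : Set Ed) e = ind (↑(seg U p s t) : Set Ed) e +
        ind ({pe (orb (ow U) p (t + 1))} : Set Ed) e := by
      intro e
      by_cases h1 : e = pe (orb (ow U) p (t + 1))
      · have a1 : ind ({pe (orb (ow U) p (t + 1))} : Set Ed) e = 1 := ind_mem (by rw [h1]; rfl)
        have a2 : ind (↑(seg U p s t) : Set Ed) e = 0 :=
          ind_not (by rw [Finset.mem_coe, h1]; exact hnot)
        have a3 : ind (↑(seg U p s (t + 1)) : Set Ed) e = 1 := ind_mem (by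
          rw [Finset.mem_coe, mem_seg]
          exact ⟨t + 1, by omega, le_refl _, h1.symm⟩)
        rw [a1, a2, a3, zero_add]
      · have a1 : ind ({pe (orb (ow U) p (t + 1))} : Set Ed) e = 0 := ind_not (by simpa using h1)
        rw [a1, add_zero]
        by_cases h2 : e ∈ seg U p s t
        · have a2 : ind (↑(seg U p s t) : Set Ed) e = 1 := ind_mem (by rw [Finset.mem_coe]; exact h2)
          have a3 : ind (↑(seg U p s (t + 1)) : Set Ed) e = 1 := ind_mem (by
            rw [Finset.mem_coe, mem_seg]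
            obtain ⟨i, h3, h4, h5⟩ := mem_seg.1 h2
            exact ⟨i, h3, by omega, h5⟩)
          rw [a2, a3]
        · have a2 : ind (↑(seg U p s t) : Set Ed) e = 0 := ind_not (by rw [Finset.mem_coe]; exact h2)
          have a3 : ind (↑(seg U p s (t + 1)) : Set Ed) e = 0 := ind_not (by
            rw [Finset.mem_coe, mem_seg]
            rintro ⟨i, h3, h4, h5⟩
            rcases Nat.lt_or_ge t i with h6 | h6
            · have : i = t + 1 := by omega
              subst this
              exact h1 h5.symm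
            · exact h2 (mem_seg.2 ⟨i, h3, h6, h5⟩))
          rw [a2, a3]
    have hd : dv (ind (↑(seg U p s (t + 1)) : Set Ed)) v = dv (ind (↑(seg U p s t) : Set Ed)) v +
        dv (ind ({pe (orb (ow U) p (t + 1))} : Set Ed)) v := by
      unfold dv
      rw [hsum, hsum, hsum]; ring
    rw [hd, ih']
    have h4 := dv_single (orb (ow U) p (t + 1)).1 (orb (ow U) p (t + 1)).2 v
    rw [nb_orb] at h4
    unfold pe
    rw [h4]
    have := two_zmod (ind {(orb (ow U) p t).1} v)
    linear_combination this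

end Cycle

/-- the arriving position of a vertex with one face -/
theorem one_pos {U : Finset Fc} {a : Vx} {k : Fin 3} (h : One U a k) : Bi (ow U) (a, k + 2) := by
  rw [bi_iff]
  refine ⟨?_, ?_⟩
  · show fc a (k + 2 + 1) ∈ U
    have : ∀ k : Fin 3, k + 2 + 1 = k := by decide
    rw [this]; exact h.1
  · show fc a (k + 2 + 2) ∉ U
    have : ∀ k : Fin 3, k + 2 + 2 = k + 1 := by decide
    rw [this]; exact h.2.1

theorem one_next {U : Finset Fc} {a : Vx} {k : Fin 3} (h : One U a k) :
    pe (stp (ow U) (a, k + 2)) = ed a (k + 1) := by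
  have h1 : ow U (ph (a, k + 2)) = false := ow_false.2 h.2.2
  unfold stp
  rw [if_neg (by simp [h1])]
  have : ∀ k : Fin 3, k + 2 + 2 = k + 1 := by decide
  show ed (nb a (k + 2 + 2)) (k + 2 + 2) = ed a (k + 1)
  rw [this, ed_nb]

theorem t_le {t : ℕ → ℕ} {n N : ℕ} (htn : t n = N) (hmono : ∀ i < n, t i < t (i + 1)) (i : ℕ)
    (hi : i ≤ n) : t i ≤ N := by
  have h : ∀ k, k ≤ n → t (n - k) ≤ N := by
    intro k
    induction k with
    | zero => intro _; rw [Nat.sub_zero, htn]
    | succ k ih =>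
      intro hk
      have h1 := hmono (n - (k + 1)) (by omega)
      have e : n - (k + 1) + 1 = n - k := by omega
      rw [e] at h1
      exact le_trans h1.le (ih (by omega))
  have := h (n - i) (by omega)
  have e : n - (n - i) = i := by omega
  rwa [e] at this

/-- marks at increasing times of the boundary orbit -/
noncomputable def mkMarks (h1b : D1b) {U : Finset Fc} (hU : IsDom U) {p : Pos} {N : ℕ} (n : ℕ)
    [NeZero n] (hb : Bi (ow U) p) (hN : orb (ow U) p N = p)
    (hmin : ∀ i, 1 ≤ i → i < N → orb (ow U) p i ≠ p) (t : ℕ → ℕ) (ht0 : t 0 = 0) (htn : t n = N)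
    (hmono : ∀ i < n, t i < t (i + 1))
    (hone : ∀ i < n, ∃ k, One U (orb (ow U) p (t i)).1 k ∧ (orb (ow U) p (t i)).2 = k + 2)
    (hinj : ∀ i < n, ∀ j < n, (orb (ow U) p (t i)).1 = (orb (ow U) p (t j)).1 → i = j) :
    Marks U n where
  u j := (orb (ow U) p (t j)).1
  C j := seg U p (t j) (t (j + 1))
  out j := by
    obtain ⟨k, h1, h2⟩ := hone j.1 j.2
    refine ⟨k, h1.1, h1.2.1, h1.2.2, ?_⟩
    rw [mem_seg]
    refine ⟨t j + 1, by omega, hmono j.1 j.2, ?_⟩
    rw [orb_succ, ← one_next h1]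
    congr 2
    exact Prod.ext rfl h2
  mem e := by
    have hle : ∀ i, i ≤ n → t i ≤ N := t_le htn hmono
    have hN1 : 1 ≤ N := by
      have h0 := hmono 0 (Nat.pos_of_ne_zero (NeZero.ne n))
      have := hle (0 + 1) (Nat.pos_of_ne_zero (NeZero.ne n))
      omega
    constructor
    · intro he
      obtain ⟨q, hq, rfl⟩ := exists_pos he
      obtain ⟨i, hi, rfl⟩ := all_on h1b hU hb hN1 hN hq
      -- index in (0, N]
      obtain ⟨i', h1, h2, h3⟩ : ∃ i', 0 < i' ∧ i' ≤ N ∧ orb (ow U) p i' = orb (ow U) p i := by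
        rcases Nat.eq_zero_or_pos i with h | h
        · subst h
          exact ⟨N, by omega, le_refl _, by rw [hN]; rfl⟩
        · exact ⟨i, h, hi.le, rfl⟩
      rw [← h3]
      -- the interval containing `i'`
      have hex : ∃ j, i' ≤ t j := ⟨n, by rw [htn]; exact h2⟩
      classical
      have hj := Nat.find_spec hex
      set j := Nat.find hex with hjdef
      have hj0 : j ≠ 0 := by
        intro h
        rw [h, ht0] at hj
        omega
      have hjn : j ≤ n := Nat.find_min' hex (by rw [htn]; exact h2)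
      have hlt : t (j - 1) < i' := by
        by_contra hcon
        exact Nat.find_min hex (m := j - 1) (by omega) (by omega)
      refine ⟨⟨j - 1, by omega⟩, ?_⟩
      rw [mem_seg]
      refine ⟨i', hlt, ?_, rfl⟩
      have : j - 1 + 1 = j := by omega
      simp only [this]
      exact hj
    · rintro ⟨j, hj⟩
      obtain ⟨i, _, _, rfl⟩ := mem_seg.1 hj
      exact isB_pe (hb.orb i)
  disj := by
    have hle : ∀ i, i ≤ n → t i ≤ N := t_le htn hmono
    have hmono' : ∀ i j, i ≤ j → j ≤ n → t i ≤ t j := by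
      intro i j hij hj
      induction j, hij using Nat.le_induction with
      | base => exact le_refl _
      | succ j hij ih => exact le_trans (ih (by omega)) (hmono j (by omega)).le
    have key : ∀ j l : Fin n, j.1 < l.1 → Disjoint (seg U p (t j) (t (j + 1)))
        (seg U p (t l) (t (l + 1))) := by
      intro j l hjl
      rw [Finset.disjoint_left]
      intro e he he'
      obtain ⟨i, h1, h2, h3⟩ := mem_seg.1 he
      obtain ⟨i', h4, h5, h6⟩ := mem_seg.1 he'
      have h7 := hmono' (j.1 + 1) l.1 (by omega) (by omega)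
      have h8 := hle (l.1 + 1) (by omega)
      rw [← h6] at h3
      exact orb_ne hb hmin (i := i) (j := i') (by omega) (by omega)
        (pe_inj (hb.orb _) (hb.orb _) h3)
    intro j l hjl
    rcases lt_or_gt_of_ne (fun h => hjl (Fin.ext h)) with h | h
    · exact key j l h
    · exact (key l j h).symm
  dvC j v := by
    have hle : ∀ i, i ≤ n → t i ≤ N := t_le htn hmono
    rw [seg_dv (N := N) hb hmin (hmono j.1 j.2).le (by have := hle (j.1 + 1) j.2; omega)]
    congr 2
    have hv : (orb (ow U) p (t (j.1 + 1))).1 = (orb (ow U) p (t ((j + 1 : Fin n).1))).1 := by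
      rcases Nat.lt_or_ge (j.1 + 1) n with h | h
      · congr 3
        rw [Fin.val_add_one_of_lt']
        exact h
      · have h1 : j.1 + 1 = n := by omega
        have h2 : ((j + 1 : Fin n)).1 = 0 := by
          rw [Fin.val_add, Fin.val_one']
          rw [Nat.add_mod_mod, h1, Nat.mod_self]
        rw [h1, h2, htn, ht0, hN]; rfl
    rw [hv]
  inj j l h := Fin.ext (hinj j.1 j.2 l.1 l.2 h)

/-- rotation of the marks -/
def rotMarks {U : Finset Fc} {n : ℕ} [NeZero n] (M : Marks U n) (c : Fin n) : Marks U n where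
  u j := M.u (j + c)
  C j := M.C (j + c)
  out j := M.out (j + c)
  mem e := by
    rw [M.mem]
    constructor
    · rintro ⟨j, hj⟩
      refine ⟨j - c, ?_⟩
      rwa [sub_add_cancel]
    · rintro ⟨j, hj⟩
      exact ⟨_, hj⟩
  disj j l h := M.disj _ _ (fun h' => h (add_right_cancel h'))
  dvC j v := by
    rw [M.dvC]
    congr 3
    rw [add_right_comm]
  inj j l h := add_right_cancel (M.inj h)

/-- **ARC** -/
theorem arc (h1b : D1b) : ARC := by
  intro U a x y w ka kx ky kw hU ha hx hy hw hax hay haw hxy hxw hyw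
  have hb := one_pos ha
  obtain ⟨N, hN1, hN, hmin⟩ := exists_period hb
  set p : Pos := (a, ka + 2) with hp
  have hidx : ∀ (b : Vx) (k : Fin 3), One U b k → a ≠ b → ∃ i, 0 < i ∧ i < N ∧
      orb (ow U) p i = (b, k + 2) := by
    intro b k hbk hab
    obtain ⟨i, hi, he⟩ := all_on h1b hU hb hN1 hN (one_pos hbk)
    refine ⟨i, ?_, hi, he⟩
    rcases Nat.eq_zero_or_pos i with h | h
    · subst h
      exact absurd (congrArg Prod.fst he) hab
    · exact h
  obtain ⟨ix, hx0, hxN, hxe⟩ := hidx x kx hx hax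
  obtain ⟨iy, hy0, hyN, hye⟩ := hidx y ky hy hay
  obtain ⟨iw, hw0, hwN, hwe⟩ := hidx w kw hw haw
  -- sorted version
  have main : ∀ (x y w : Vx) (kx ky kw : Fin 3) (ix iy iw : ℕ), One U x kx → One U y ky →
      One U w kw → a ≠ x → a ≠ y → a ≠ w → x ≠ y → x ≠ w → y ≠ w → 0 < ix → ix < iy → iy < iw →
      iw < N → orb (ow U) p ix = (x, kx + 2) → orb (ow U) p iy = (y, ky + 2) →
      orb (ow U) p iw = (w, kw + 2) →
      ∃ M : Marks U 4, M.u 1 = a ∧ ({M.u 0, M.u 2, M.u 3} : Set Vx) = {x, y, w} := by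
    intro x y w kx ky kw ix iy iw hx hy hw hax hay haw hxy hxw hyw h0 h1 h2 h3 e1 e2 e3
    set t : ℕ → ℕ := fun i => if i = 0 then 0 else if i = 1 then ix else if i = 2 then iy else
      if i = 3 then iw else N with ht
    have t0 : t 0 = 0 := rfl
    have t1 : t 1 = ix := rfl
    have t2 : t 2 = iy := rfl
    have t3 : t 3 = iw := rfl
    have t4 : t 4 = N := rfl
    have o0 : orb (ow U) p (t 0) = (a, ka + 2) := by rw [t0]; rfl
    have o1 : orb (ow U) p (t 1) = (x, kx + 2) := by rw [t1]; exact e1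
    have o2 : orb (ow U) p (t 2) = (y, ky + 2) := by rw [t2]; exact e2
    have o3 : orb (ow U) p (t 3) = (w, kw + 2) := by rw [t3]; exact e3
    set M := mkMarks h1b hU 4 hb hN hmin t t0 t4
      (by
        intro i hi
        interval_cases i
        · rw [t0, t1]; exact h0
        · rw [t1, t2]; exact h1
        · rw [t2, t3]; exact h2
        · rw [t3, t4]; exact h3)
      (by
        intro i hi
        interval_cases i
        · rw [o0]; exact ⟨ka, ha, rfl⟩
        · rw [o1]; exact ⟨kx, hx, rfl⟩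
        · rw [o2]; exact ⟨ky, hy, rfl⟩
        · rw [o3]; exact ⟨kw, hw, rfl⟩)
      (by
        intro i hi j hj h
        interval_cases i <;> interval_cases j <;> first
        | rfl
        | (simp only [o0, o1, o2, o3] at h; exact absurd h (by first | assumption | (apply Ne.symm; assumption))))
      with hM
    have m0 : M.u 0 = a := congrArg Prod.fst o0
    have m1 : M.u 1 = x := congrArg Prod.fst o1
    have m2 : M.u 2 = y := congrArg Prod.fst o2
    have m3 : M.u 3 = w := congrArg Prod.fst o3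
    refine ⟨rotMarks M 3, ?_, ?_⟩
    · show M.u (1 + 3) = a
      exact m0
    · show ({M.u (0 + 3), M.u (2 + 3), M.u (3 + 3)} : Set Vx) = {x, y, w}
      have f1 : (0 + 3 : Fin 4) = 3 := rfl
      have f2 : (2 + 3 : Fin 4) = 1 := rfl
      have f3 : (3 + 3 : Fin 4) = 2 := rfl
      rw [f1, f2, f3, m1, m2, m3]
      ext z
      simp only [Set.mem_insert_iff, Set.mem_singleton_iff]
      tauto
  have hne : ∀ {i j : ℕ} {b c : Vx} {k l : Fin 3}, orb (ow U) p i = (b, k) →
      orb (ow U) p j = (c, l) → b ≠ c → i ≠ j := by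
    rintro i j b c k l h1 h2 h3 rfl
    rw [h1] at h2
    exact h3 (congrArg Prod.fst h2)
  have nxy := hne hxe hye hxy
  have nxw := hne hxe hwe hxw
  have nyw := hne hye hwe hyw
  have perm : ∀ {M : Marks U 4} {b c d : Vx}, ({M.u 0, M.u 2, M.u 3} : Set Vx) = {b, c, d} →
      ({b, c, d} : Set Vx) = {x, y, w} → ({M.u 0, M.u 2, M.u 3} : Set Vx) = {x, y, w} :=
    fun h h' => h.trans h'
  rcases lt_or_gt_of_ne nxy with h1 | h1
  · rcases lt_or_gt_of_ne nyw with h2 | h2
    · exact main x y w kx ky kw ix iy iw hx hy hw hax hay haw hxy hxw hyw hx0 h1 h2 hwN hxe hye hwe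
    · rcases lt_or_gt_of_ne nxw with h3 | h3
      · obtain ⟨M, g1, g2⟩ := main x w y kx kw ky ix iw iy hx hw hy hax haw hay hxw hxy hyw.symm
          hx0 h3 h2 hyN hxe hwe hye
        exact ⟨M, g1, perm g2 (by ext z; simp only [Set.mem_insert_iff, Set.mem_singleton_iff]; tauto)⟩
      · obtain ⟨M, g1, g2⟩ := main w x y kw kx ky iw ix iy hw hx hy haw hax hay hxw.symm hyw.symm hxy
          hw0 h3 h1 hyN hwe hxe hye
        exact ⟨M, g1, perm g2 (by ext z; simp only [Set.mem_insert_iff, Set.mem_singleton_iff]; tauto)⟩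
  · rcases lt_or_gt_of_ne nxw with h2 | h2
    · obtain ⟨M, g1, g2⟩ := main y x w ky kx kw iy ix iw hy hx hw hay hax haw hxy.symm hyw hxw
        hy0 h1 h2 hwN hye hxe hwe
      exact ⟨M, g1, perm g2 (by ext z; simp only [Set.mem_insert_iff, Set.mem_singleton_iff]; tauto)⟩
    · rcases lt_or_gt_of_ne nyw with h3 | h3
      · obtain ⟨M, g1, g2⟩ := main y w x ky kw kx iy iw ix hy hw hx hay haw hax hyw hxy.symm hxw.symm
          hy0 h3 h2 hxN hye hwe hxe
        exact ⟨M, g1, perm g2 (by ext z; simp only [Set.mem_insert_iff, Set.mem_singleton_iff]; tauto)⟩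
      · obtain ⟨M, g1, g2⟩ := main w y x kw ky kx iw iy ix hw hy hx haw hay hax hyw.symm hxw.symm
          hxy.symm hw0 h3 h1 hxN hwe hye hxe
        exact ⟨M, g1, perm g2 (by ext z; simp only [Set.mem_insert_iff, Set.mem_singleton_iff]; tauto)⟩

end Pool.Agent.H98.SM
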